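import Pool.Agent.H93.HB.Defs

/-!
# Theorem (H) for all window lengths (MP_c59857_nt), Bessel's inequality below the logarithm:
statements for one block
-/

set_option autoImplicit false

namespace Pool.Agent.H93.HB

open Finset Pool.Agent.H18.MR Pool.Agent.H93.DE Pool.Agent.H6.N4D Pool.Agent.H93
  Pool.Agent.H93.ES Pool.Agent.H22.GS Pool.Agent.H6.G9 Pool.Agent.H56.HB Pool.Agent.H28.HB

/-! ## (b) words and labels -/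

/-- TLE. The words of a field which is a function of the label of the tile and of the place in the
tile are functions of few labels. -/
def T_TLE : Prop := ∀ (N w o L M : ℕ) [NeZero N] (l : ZMod N → Fin M), 1 ≤ M → 2 ^ w ∣ N →
  o < 2 ^ w → ∃ (T : ℕ) (m : ZMod N → Fin T) (F : Fin T → Fin L → Fin M × Fin (2 ^ w)),
    1 ≤ T ∧ Real.log T ≤ Real.log (2 ^ w) + ((L / 2 ^ w + 2 : ℕ) : ℝ) * Real.log M ∧
    ∀ n, wd (fun x : ZMod N => (l (tp w o x), tl w o x)) L n = F (m n)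

/-- NET. A finite net for the dual functions of all families on a window. -/
def T_NET : Prop := ∀ P : ℕ, ∃ (C : ℝ) (w₀ : ℕ), 0 < C ∧ ∀ w, w₀ ≤ w →
  ∃ (M : ℕ) (Γ : Fin M → ℕ → ℝ), 1 ≤ M ∧ Real.log M ≤ C * w * 2 ^ (w / 200) ∧
    ∀ (r₀ : ℕ) (φ : ℕ → ℕ → ℝ) (u : ℕ → ℕ → ℂ), (∀ j q, ‖u j q‖ ≤ P) →
      ∃ l, ∀ t < 2 ^ w, |(dg w r₀ P φ u t).re - Γ l t| ≤ (1 / 2) ^ (w / 2)

/-- NE0. A finite net for the sums of `R` exponentials on a window. -/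
def T_NE0 : Prop := ∀ R : ℕ, ∃ (C : ℝ) (s₀ : ℕ), 0 < C ∧ ∀ s, s₀ ≤ s →
  ∃ (M : ℕ) (Γ : Fin M → ℕ → ℝ), 1 ≤ M ∧ Real.log M ≤ C * s ∧
    ∀ (b : ℕ → ℂ) (β : ℕ → ℝ), (∀ r, ‖b r‖ ≤ 1) →
      ∃ l, ∀ t : ℕ, t < 2 ^ s →
        |(∑ r ∈ range R, b r * ee (β r * t)).re - Γ l t| ≤ (1 / 2) ^ (s / 2)

/-- RND. Rounding. -/
def T_RND : Prop := ∀ (D : ℕ) (v : ℝ), |v| ≤ 1 →
  ∃ b : Fin D → Bool, |v - val D b| ≤ (1 / 2) ^ D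

/-! ## (d) the greedy step -/

/-- DGW. The mean square of the dual function of a family; the constant is absolute. -/
def T_DGW : Prop := ∃ C₁ : ℝ, 1 ≤ C₁ ∧ ∀ (P : ℕ) (V : ℝ), ∃ w₀ : ℕ, ∀ (w r₀ : ℕ)
  (φ : ℕ → ℕ → ℝ) (u : ℕ → ℕ → ℂ), w₀ ≤ w → FC w P V φ u →
  ms w (dg w r₀ P φ u) ≤ C₁ * qe w P φ u + (1 / 2) ^ (w / 2000)

/-- OFF. The best offset of the tiles, with clipping. -/
def T_OFF : Prop := ∀ (N w : ℕ) [NeZero N] (c : ℝ) (lam f : ZMod N → ℝ) (H : ZMod N → ℕ → ℝ),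
  2 ^ w ∣ N → (∀ x, |lam x| ≤ 1) → ∃ o < 2 ^ w,
    avZ (fun x => (lam x - clp (f x + c * H (tp w o x) (tl w o x))) ^ 2) ≤
      avZ (fun x => (lam x - f x) ^ 2) + avZ (fun n => (∑ t ∈ range (2 ^ w),
        (c ^ 2 * H n t ^ 2 - 2 * c * (lt lam n t - lt f n t) * H n t)) / 2 ^ w)

/-- STP. One step of the greedy algorithm; the constants `c₁` and `δ` are absolute. `X` bounds the
cross terms. -/
def T_STP : Prop := ∃ c₁ δ : ℝ, 0 < c₁ ∧ 0 < δ ∧ ∀ (P : ℕ) (V : ℝ),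
  ∃ (C : ℝ) (w₀ : ℕ), 0 < C ∧ ∀ (N w w' : ℕ) [NeZero N] (lam : ZMod N → ℝ)
  (y : ZMod N → Fin w → Bool) (φ : ZMod N → ℕ → ℕ → ℝ) (u : ZMod N → ℕ → ℕ → ℂ) (X : ℝ),
  w₀ ≤ w → w ≤ w' → (∀ x, |lam x| ≤ 1) → 2 ^ w ∣ N → 0 ≤ X →
  (∀ n, FC w P V (φ n) (u n)) →
  avZ (fun n => ∑ q ∈ EB.QQ w, 1 / (q : ℝ) *
      ‖cx (lt (fun x => val w (y x)) n) w q n.val (fe P (φ n) (u n) q)‖) ≤
    δ * avZ (fun n => qe w P (φ n) (u n)) + X →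
  ∃ (y' : ZMod N → Fin w' → Bool) (M o : ℕ) (l : ZMod N → Fin M)
    (Ψ : (Fin w → Bool) → Fin M × Fin (2 ^ w) → (Fin w' → Bool)), 1 ≤ M ∧ o < 2 ^ w ∧
    Real.log M ≤ C * w * 2 ^ (w / 200) ∧
    (∀ x, y' x = Ψ (y x) (l (tp w o x), tl w o x)) ∧
    avZ (fun x => (lam x - val w' (y' x)) ^ 2) +
        c₁ * avZ (fun n => fw (lt lam n) w n.val P (φ n) (u n)) ≤
      avZ (fun x => (lam x - val w (y x)) ^ 2) + X + (1 / 2) ^ (w / 3000)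

/-- BS0. The beginning of the greedy algorithm. -/
def T_BS0 : Prop := ∀ R : ℕ, ∃ (C : ℝ) (s₀ : ℕ), 0 < C ∧ ∀ (N s w' : ℕ) [NeZero N]
  (lam : ZMod N → ℝ) (b : ZMod N → ℕ → ℂ) (β : ZMod N → ℕ → ℝ),
  s₀ ≤ s → s ≤ w' → (∀ x, |lam x| ≤ 1) → (∀ n r, ‖b n r‖ ≤ 1) → 2 ^ s ∣ N →
  ∃ (y' : ZMod N → Fin w' → Bool) (M o : ℕ) (l : ZMod N → Fin M)
    (Ψ : Fin M × Fin (2 ^ s) → (Fin w' → Bool)), 1 ≤ M ∧ o < 2 ^ s ∧ Real.log M ≤ C * s ∧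
    (∀ x, y' x = Ψ (l (tp s o x), tl s o x)) ∧
    avZ (fun x => (lam x - val w' (y' x)) ^ 2) ≤ 2 * be R s lam b β + (1 / 2) ^ (s / 4)

/-! ## (e) one block -/

/-- BLO. Bessel's inequality on one block; the constant `C₀` is absolute and there is no condition
on the number `K` of the levels. -/
def T_BLO : Prop := ∃ (B : ℕ) (C₀ : ℝ), 1 ≤ B ∧ 0 < C₀ ∧ ∀ (R P : ℕ) (V ε : ℝ), 1 ≤ V →
  0 < ε → ∃ s₀ : ℕ, ∀ s, s₀ ≤ s → ∀ (N K : ℕ) [NeZero N] (w : ℕ → ℕ) (lam : ZMod N → ℝ)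
  (φ : ℕ → ZMod N → ℕ → ℕ → ℝ) (u : ℕ → ZMod N → ℕ → ℕ → ℂ) (b : ZMod N → ℕ → ℂ)
  (β : ZMod N → ℕ → ℝ), (∀ x, |lam x| ≤ 1) → (∀ n r, ‖b n r‖ ≤ 1) → 2 ^ s ∣ N →
  B * s ≤ w 0 → (∀ j, j + 1 < K → B * w j ≤ w (j + 1)) →
  (∀ j < K, primorial (2 ^ (w j / 200)) ∣ N ∧ 2 ^ w j ∣ N) →
  (∀ j < K, ∀ n, FC (w j) P V (φ j n) (u j n)) →
  ∑ j ∈ range K, avZ (fun n => fw (lt lam n) (w j) n.val P (φ j n) (u j n)) ≤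
    C₀ * be R s lam b β + ε

end Pool.Agent.H93.HB
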