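import Pool.Agent.H93.HB.Targets
import Pool.Agent.H81.GS.LVBF

/-!
# Theorem (H) for all window lengths (MP_c59857_nt): Bessel's inequality on one block (row BLO)
-/

set_option autoImplicit false

namespace Pool.Agent.H93.HB

open Finset Pool.Agent.H18.MR Pool.Agent.H93.DE Pool.Agent.H6.N4D Pool.Agent.H93
  Pool.Agent.H93.ES Pool.Agent.H22.GS Pool.Agent.H6.G9 Pool.Agent.H56.HB Pool.Agent.H28.HB

/-! ## elementary inequalities -/

/-- powers of two against linear functions -/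
lemma ev_lin (A : ℝ) : ∃ n₀ : ℕ, ∀ n : ℕ, n₀ ≤ n → A * n ≤ 2 ^ (n / 8) := by
  have h1 : Filter.Tendsto (fun n : ℕ => (n : ℝ) ^ 1 / (2 : ℝ) ^ n) Filter.atTop (nhds 0) :=
    tendsto_pow_const_div_const_pow_of_one_lt 1 (by norm_num)
  have h2 : ∀ᶠ n : ℕ in Filter.atTop, (n : ℝ) ^ 1 / (2 : ℝ) ^ n < 1 / (16 * (|A| + 1)) :=
    h1.eventually_lt_const (by positivity)
  obtain ⟨n₀, hn₀⟩ := Filter.eventually_atTop.1 h2
  refine ⟨8 * n₀ + 8, fun n hn => ?_⟩
  have h3 := hn₀ (n / 8) (by omega)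
  rw [pow_one, div_lt_div_iff₀ (by positivity) (by positivity), one_mul] at h3
  have h4 : (n : ℝ) ≤ 16 * ((n / 8 : ℕ) : ℝ) := by
    have : n ≤ 16 * (n / 8) := by omega
    exact_mod_cast this
  have h5 : A ≤ |A| + 1 := by linarith [le_abs_self A]
  have h6 : (0 : ℝ) ≤ ((n / 8 : ℕ) : ℝ) := Nat.cast_nonneg _
  calc A * n ≤ (|A| + 1) * n := mul_le_mul_of_nonneg_right h5 (Nat.cast_nonneg _)
    _ ≤ (|A| + 1) * (16 * ((n / 8 : ℕ) : ℝ)) :=
        mul_le_mul_of_nonneg_left h4 (by positivity)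
    _ = ((n / 8 : ℕ) : ℝ) * (16 * (|A| + 1)) := by ring
    _ ≤ 2 ^ (n / 8) := h3.le

/-- the entropy of the labels of one level against the length of the words -/
lemma lab_small (C : ℝ) (hC : 0 < C) : ∃ w₁ : ℕ, ∀ (w a : ℕ) (T : ℝ), w₁ ≤ w → 2 * w ≤ a →
    T ≤ Real.log (2 ^ w) + ((2 ^ a / 2 ^ w + 2 : ℕ) : ℝ) * (C * w * 2 ^ (w / 200)) →
    T / 2 ^ a ≤ (1 / 2) ^ (w / 2) := by
  obtain ⟨n₀, hn₀⟩ := ev_lin (1 + 3 * C)
  refine ⟨n₀ + 8, fun w a T hw ha hT => ?_⟩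
  have h1 := hn₀ w (by omega)
  have ha0 : (0 : ℝ) < 2 ^ a := by positivity
  have hlog : Real.log (2 ^ w) ≤ w := by
    rw [Real.log_pow]
    have : Real.log 2 ≤ 1 := by
      have := Real.log_two_lt_d9
      linarith
    have hw0 : (0 : ℝ) ≤ w := Nat.cast_nonneg _
    nlinarith
  have hdiv : ((2 ^ a / 2 ^ w + 2 : ℕ) : ℝ) ≤ 3 * 2 ^ (a - w) := by
    have e1 : 2 ^ a / 2 ^ w = 2 ^ (a - w) := Nat.pow_div (by omega) (by norm_num)
    rw [e1]
    have e2 : 1 ≤ 2 ^ (a - w) := Nat.one_le_two_pow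
    have e3 : 2 ^ (a - w) + 2 ≤ 3 * 2 ^ (a - w) := by omega
    calc ((2 ^ (a - w) + 2 : ℕ) : ℝ) ≤ ((3 * 2 ^ (a - w) : ℕ) : ℝ) := by exact_mod_cast e3
      _ = 3 * 2 ^ (a - w) := by push_cast; ring
  rw [div_le_iff₀ ha0]
  have e4 : (2 : ℝ) ^ a = 2 ^ w * 2 ^ (a - w) := by
    rw [← pow_add]
    congr 1
    omega
  have e5 : (1 / 2 : ℝ) ^ (w / 2) * 2 ^ a = 2 ^ (w - w / 2) * 2 ^ (a - w) := by
    rw [e4]
    have : (2 : ℝ) ^ w = 2 ^ (w / 2) * 2 ^ (w - w / 2) := by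
      rw [← pow_add]
      congr 1
      omega
    rw [this]
    have h9 : (1 / 2 : ℝ) ^ (w / 2) * 2 ^ (w / 2) = 1 := by
      rw [← mul_pow]
      norm_num
    calc (1 / 2 : ℝ) ^ (w / 2) * (2 ^ (w / 2) * 2 ^ (w - w / 2) * 2 ^ (a - w)) =
        ((1 / 2 : ℝ) ^ (w / 2) * 2 ^ (w / 2)) * (2 ^ (w - w / 2) * 2 ^ (a - w)) := by ring
      _ = _ := by rw [h9, one_mul]
  rw [e5]
  have hCw : 0 ≤ C * w * 2 ^ (w / 200) := by positivity
  have h2 : (1 : ℝ) ≤ 2 ^ (w / 200) := one_le_pow₀ (by norm_num)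
  have h3 : (1 : ℝ) ≤ 2 ^ (a - w) := one_le_pow₀ (by norm_num)
  have hw0 : (0 : ℝ) ≤ w := Nat.cast_nonneg _
  calc T ≤ Real.log (2 ^ w) + ((2 ^ a / 2 ^ w + 2 : ℕ) : ℝ) * (C * w * 2 ^ (w / 200)) := hT
    _ ≤ w + 3 * 2 ^ (a - w) * (C * w * 2 ^ (w / 200)) :=
        add_le_add hlog (mul_le_mul_of_nonneg_right hdiv hCw)
    _ ≤ w * (2 ^ (w / 200) * 2 ^ (a - w)) + 3 * 2 ^ (a - w) * (C * w * 2 ^ (w / 200)) := by
        have : (1 : ℝ) ≤ 2 ^ (w / 200) * 2 ^ (a - w) := one_le_mul_of_one_le_of_one_le h2 h3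
        nlinarith
    _ = ((1 + 3 * C) * w) * 2 ^ (w / 200) * 2 ^ (a - w) := by ring
    _ ≤ 2 ^ (w / 8) * 2 ^ (w / 200) * 2 ^ (a - w) := by gcongr
    _ = 2 ^ (w / 8 + w / 200) * 2 ^ (a - w) := by rw [pow_add]
    _ ≤ 2 ^ (w - w / 2) * 2 ^ (a - w) := by
        apply mul_le_mul_of_nonneg_right _ (by positivity)
        exact pow_le_pow_right₀ (by norm_num) (by omega)

/-- the number of the digits -/
lemma dig_small : ∃ w₁ : ℕ, ∀ w : ℕ, w₁ ≤ w →
    (1 / 2 : ℝ) ^ (w / 2) * Real.log (Fintype.card (Fin w → Bool)) ≤ (1 / 2) ^ (w / 4) := by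
  obtain ⟨n₀, hn₀⟩ := ev_lin 1
  refine ⟨n₀ + 8, fun w hw => ?_⟩
  have h1 := hn₀ w (by omega)
  have e1 : Real.log (Fintype.card (Fin w → Bool)) ≤ w := by
    rw [Fintype.card_fun, Fintype.card_bool, Fintype.card_fin]
    push_cast
    rw [Real.log_pow]
    have : Real.log 2 ≤ 1 := by
      have := Real.log_two_lt_d9
      linarith
    have hw0 : (0 : ℝ) ≤ w := Nat.cast_nonneg _
    nlinarith
  have e2 : (1 / 2 : ℝ) ^ (w / 2) = (1 / 2) ^ (w / 4) * (1 / 2) ^ (w / 2 - w / 4) := by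
    rw [← pow_add]
    congr 1
    omega
  have e3 : (1 / 2 : ℝ) ^ (w / 2 - w / 4) * 2 ^ (w / 8) ≤ 1 := by
    have : (1 / 2 : ℝ) ^ (w / 2 - w / 4) ≤ (1 / 2) ^ (w / 8) :=
      pow_le_pow_of_le_one (by norm_num) (by norm_num) (by omega)
    calc (1 / 2 : ℝ) ^ (w / 2 - w / 4) * 2 ^ (w / 8) ≤ (1 / 2) ^ (w / 8) * 2 ^ (w / 8) := by
          gcongr
      _ = 1 := by
          rw [← mul_pow]
          norm_num
  calc (1 / 2 : ℝ) ^ (w / 2) * Real.log (Fintype.card (Fin w → Bool))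
      ≤ (1 / 2 : ℝ) ^ (w / 2) * 2 ^ (w / 8) := by
        apply mul_le_mul_of_nonneg_left _ (by positivity)
        linarith
    _ = (1 / 2) ^ (w / 4) * ((1 / 2 : ℝ) ^ (w / 2 - w / 4) * 2 ^ (w / 8)) := by
        rw [e2]; ring
    _ ≤ (1 / 2) ^ (w / 4) * 1 := by gcongr
    _ = (1 / 2) ^ (w / 4) := mul_one _

/-- geometric sums over the levels -/
lemma geo (w : ℕ → ℕ) (K d : ℕ) (hd : 1 ≤ d) (h : ∀ j < K, w 0 + d * j ≤ w j) :
    ∑ j ∈ range K, (1 / 2 : ℝ) ^ (w j / d) ≤ 2 * (1 / 2) ^ (w 0 / d) := by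
  have h1 : ∀ j ∈ range K, (1 / 2 : ℝ) ^ (w j / d) ≤ (1 / 2) ^ (w 0 / d) * (1 / 2) ^ j := by
    intro j hj
    rw [← pow_add]
    apply pow_le_pow_of_le_one (by norm_num) (by norm_num)
    have h2 := h j (mem_range.1 hj)
    calc w 0 / d + j = (w 0 + d * j) / d := by
          rw [Nat.add_mul_div_left _ _ (by omega)]
      _ ≤ w j / d := Nat.div_le_div_right h2
  calc ∑ j ∈ range K, (1 / 2 : ℝ) ^ (w j / d)
      ≤ ∑ j ∈ range K, (1 / 2) ^ (w 0 / d) * (1 / 2) ^ j := sum_le_sum h1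
    _ = (1 / 2) ^ (w 0 / d) * ∑ j ∈ range K, (1 / 2 : ℝ) ^ j := by rw [mul_sum]
    _ ≤ (1 / 2) ^ (w 0 / d) * 2 := by
        apply mul_le_mul_of_nonneg_left _ (by positivity)
        have := geom_sum_eq (by norm_num : (1 / 2 : ℝ) ≠ 1) K
        rw [this]
        have h3 : (0 : ℝ) < (1 / 2) ^ K := by positivity
        have : ((1 / 2 : ℝ) ^ K - 1) / (1 / 2 - 1) = 2 - 2 * (1 / 2) ^ K := by ring
        rw [this]
        linarith
    _ = 2 * (1 / 2) ^ (w 0 / d) := by ring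

/-- the sum of `log w / w` over the levels -/
lemma logs (w : ℕ → ℕ) (K : ℕ) (h0 : 1 ≤ w 0) (h : ∀ j < K, 4 ^ j * w 0 ≤ w j) :
    ∑ j ∈ range K, Real.log (w j) / w j ≤ 4 / √(w 0) := by
  have hs0 : 0 < √(w 0 : ℝ) := Real.sqrt_pos.2 (by exact_mod_cast h0)
  have h1 : ∀ j ∈ range K, Real.log (w j) / w j ≤ 2 / √(w 0) * (1 / 2) ^ j := by
    intro j hj
    have h2 := h j (mem_range.1 hj)
    have hwj : (0 : ℝ) < w j := by
      have : 0 < 4 ^ j * w 0 := by positivity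
      have : 0 < w j := by omega
      exact_mod_cast this
    have hsj : 0 < √(w j : ℝ) := Real.sqrt_pos.2 hwj
    have h3 : Real.log (w j) ≤ 2 * √(w j) := by
      have := Real.log_le_sub_one_of_pos hsj
      rw [Real.log_sqrt hwj.le] at this
      linarith
    have h4 : 2 ^ j * √(w 0 : ℝ) ≤ √(w j) := by
      rw [show (2 : ℝ) ^ j = √(4 ^ j) by
        rw [show (4 : ℝ) = 2 ^ 2 by norm_num, ← pow_mul, mul_comm, pow_mul,
          Real.sqrt_sq (by positivity)], ← Real.sqrt_mul (by positivity)]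
      apply Real.sqrt_le_sqrt
      exact_mod_cast h2
    calc Real.log (w j) / w j ≤ 2 * √(w j) / w j :=
          div_le_div_of_nonneg_right h3 hwj.le
      _ = 2 / √(w j) := by
          rw [div_eq_div_iff hwj.ne' hsj.ne', mul_assoc, Real.mul_self_sqrt hwj.le]
      _ ≤ 2 / (2 ^ j * √(w 0)) := div_le_div_of_nonneg_left (by norm_num) (by positivity) h4
      _ = 2 / √(w 0) * (1 / 2) ^ j := by
          rw [one_div, inv_pow]
          field_simp
  calc ∑ j ∈ range K, Real.log (w j) / w j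
      ≤ ∑ j ∈ range K, 2 / √(w 0) * (1 / 2) ^ j := sum_le_sum h1
    _ = 2 / √(w 0) * ∑ j ∈ range K, (1 / 2 : ℝ) ^ j := by rw [mul_sum]
    _ ≤ 2 / √(w 0) * 2 := by
        apply mul_le_mul_of_nonneg_left _ (by positivity)
        have := geom_sum_eq (by norm_num : (1 / 2 : ℝ) ≠ 1) K
        rw [this]
        have h3 : (0 : ℝ) < (1 / 2) ^ K := by positivity
        have : ((1 / 2 : ℝ) ^ K - 1) / (1 / 2 - 1) = 2 - 2 * (1 / 2) ^ K := by ring
        rw [this]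
        linarith
    _ = 4 / √(w 0) := by ring

/-- everything is small for large `s` -/
lemma ev_eps (A ε : ℝ) (hε : 0 < ε) : ∃ s₀ : ℕ, ∀ s : ℕ, s₀ ≤ s →
    A * ((1 / 2) ^ (s / 4) + 4 / √s) ≤ ε := by
  have h1 : Filter.Tendsto (fun s : ℕ => (1 / 2 : ℝ) ^ (s / 4) + 4 / √(s : ℝ)) Filter.atTop
      (nhds (0 + 0)) := by
    apply Filter.Tendsto.add
    · have h2 : Filter.Tendsto (fun n : ℕ => (1 / 2 : ℝ) ^ n) Filter.atTop (nhds 0) :=
        tendsto_pow_atTop_nhds_zero_of_lt_one (by norm_num) (by norm_num)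
      exact h2.comp (Nat.tendsto_div_const_atTop (by norm_num))
    · apply Filter.Tendsto.const_div_atTop
      exact Real.tendsto_sqrt_atTop.comp tendsto_natCast_atTop_atTop
  rw [add_zero] at h1
  have h3 := (h1.const_mul A)
  rw [mul_zero] at h3
  obtain ⟨s₀, hs₀⟩ := Filter.eventually_atTop.1 (h3.eventually_le_const hε)
  exact ⟨s₀, fun s hs => hs₀ s hs⟩

/-! ## the theorem -/

/-- the value of the digits as a sum over an initial segment -/
lemma val_sum (w : ℕ) (b : Fin w → Bool) :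
    val w b = ∑ d ∈ range w, (1 / 2) ^ (d + 1) * sg (if h : d < w then b ⟨d, h⟩ else false) := by
  unfold val
  rw [← Fin.sum_univ_eq_sum_range
    (fun d => (1 / 2 : ℝ) ^ (d + 1) * sg (if h : d < w then b ⟨d, h⟩ else false))]
  apply Finset.sum_congr rfl
  intro d _
  simp only [Fin.is_lt, dif_pos, Fin.eta]
  ring

lemma infA_nonneg (hD : Pool.Agent.H28.HB.T_DPI) (c N w : ℕ) [NeZero N] {γ : Type} [Fintype γ]
    [DecidableEq γ] (x : ZMod N → γ) : 0 ≤ infA c x w :=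
  (Pool.Agent.H81.GS.infT_nonneg c (fun n => (fun _ => true : γ → Bool) (x n)) w).trans
    (hD γ c N w x (fun _ => true))

/-- BLO. -/
theorem pf_BLO (hX : T_XRO) (hS : T_STP) (h0 : T_BS0) (hT : T_TLE) (hC : T_CHD)
    (hD : Pool.Agent.H28.HB.T_DPI) : T_BLO := by
  obtain ⟨c₁, δ, hc₁, hδ, hS⟩ := hS
  refine ⟨1000, 2 / c₁, by norm_num, by positivity, fun R P V ε hV hε => ?_⟩
  obtain ⟨Cs, ws, hCs, hS⟩ := hS P V
  obtain ⟨c, hX⟩ := hX P V δ hV hδ
  obtain ⟨Cx, wx, hCx, hX⟩ := hX c le_rfl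
  obtain ⟨Cb, sb, hCb, h0⟩ := h0 R
  obtain ⟨w₁, hw₁⟩ := lab_small Cs hCs
  obtain ⟨w₂, hw₂⟩ := dig_small
  obtain ⟨w₃, hw₃⟩ := lab_small Cb hCb
  obtain ⟨s₄, hs₄⟩ := ev_eps (3 + 5 * Cx) (c₁ * ε) (by positivity)
  refine ⟨ws + wx + sb + w₁ + w₂ + w₃ + s₄ + 10 ^ 5 + 8 * c + 1,
    fun s hs N K _ w lam φ u b β hlam hb hsN hw0 hww hN hFC => ?_⟩
  have hbe : 0 ≤ be R s lam b β := by
    unfold be avZ
    positivity
  rcases Nat.eq_zero_or_pos K with hK | hK
  · subst hK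
    rw [range_zero, sum_empty]
    positivity
  have hlev : ∀ j, j < K → w 0 ≤ w j ∧ 4 ^ j * w 0 ≤ w j ∧ w 0 + 3000 * j ≤ w j := by
    intro j
    induction j with
    | zero => intro _; exact ⟨le_rfl, by simp, by simp⟩
    | succ j ih =>
      intro hj
      obtain ⟨h1, h2, h3⟩ := ih (by omega)
      have h4 := hww j hj
      refine ⟨by omega, ?_, by omega⟩
      calc 4 ^ (j + 1) * w 0 = 4 * (4 ^ j * w 0) := by ring
        _ ≤ 4 * w j := by omega
        _ ≤ w (j + 1) := by omega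
  have hs1 : 1 ≤ s := by omega
  have hw0s : s ≤ w 0 := by omega
  -- the beginning
  obtain ⟨y0, M0, o0, l0, Ψ0, hM0, ho0, hlogM0, hy0, hE0⟩ :=
    h0 N s (w 0) lam b β (by omega) hw0s hlam hb hsN
  -- notations
  obtain ⟨E, hE⟩ : ∃ E : (j : ℕ) → (ZMod N → Fin (w j) → Bool) → ℝ, ∀ j y, E j y =
      avZ (fun x => (lam x - val (w j) (y x)) ^ 2) := ⟨_, fun _ _ => rfl⟩
  obtain ⟨A, hA⟩ : ∃ A : ℕ → ℝ, ∀ j, A j =
      avZ (fun n => fw (lt lam n) (w j) n.val P (φ j n) (u j n)) := ⟨_, fun _ => rfl⟩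
  obtain ⟨X, hXd⟩ : ∃ X : (j : ℕ) → (ZMod N → Fin (w j) → Bool) → ℝ, ∀ j y, X j y =
      Cx * (infA c y (w j) + Real.log (w j) / w j) := ⟨_, fun _ _ => rfl⟩
  have hX0 : ∀ j y, 0 ≤ X j y := by
    intro j y
    rw [hXd]
    have h1 := infA_nonneg hD c N (w j) y
    have h2 : 0 ≤ Real.log (w j) / w j :=
      div_nonneg (Real.log_natCast_nonneg _) (Nat.cast_nonneg _)
    positivity
  -- the cross terms
  have hcr : ∀ j, j < K → ∀ y : ZMod N → Fin (w j) → Bool,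
      avZ (fun n => ∑ q ∈ EB.QQ (w j), 1 / (q : ℝ) *
        ‖cx (lt (fun x => val (w j) (y x)) n) (w j) q n.val (fe P (φ j n) (u j n) q)‖) ≤
      δ * avZ (fun n => qe (w j) P (φ j n) (u j n)) + X j y := by
    intro j hj y
    obtain ⟨h1, -, -⟩ := hlev j hj
    rw [hXd]
    refine hX N (w j) (w j) (fun d => (1 / 2) ^ (d + 1))
      (fun d n => if h : d < w j then y n ⟨d, h⟩ else false) (fun x => val (w j) (y x))
      (infA c y (w j)) (φ j) (u j) (by omega) (by omega) (hN j hj).1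
      (fun d => ⟨by positivity, le_rfl⟩) (fun n => val_sum (w j) (y n)) ?_
      (fun n => (hFC j hj n).nf)
    intro d hd
    have h2 := hD (Fin (w j) → Bool) c N (w j) y (fun b => b ⟨d, hd⟩)
    simpa [hd] using h2
  -- one step
  obtain ⟨τ, hτ⟩ : ∃ τ : ℕ → ℝ, ∀ j, τ j = Real.log (2 ^ w j) +
      ((2 ^ (w (j + 1) / 400) / 2 ^ w j + 2 : ℕ) : ℝ) * (Cs * w j * 2 ^ (w j / 200)) :=
    ⟨_, fun _ => rfl⟩
  have hstep : ∀ (j : ℕ) (y : ZMod N → Fin (w j) → Bool),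
      ∃ y' : ZMod N → Fin (w (j + 1)) → Bool, j + 1 < K →
      (∃ (T : ℕ) (m : ZMod N → Fin T)
        (F : (Fin (2 ^ (w (j + 1) / 400)) → (Fin (w j) → Bool)) → Fin T →
          Fin (2 ^ (w (j + 1) / 400)) → (Fin (w (j + 1)) → Bool)), 1 ≤ T ∧
        Real.log T ≤ τ j ∧ ∀ n, wd y' (2 ^ (w (j + 1) / 400)) n =
          F (wd y (2 ^ (w (j + 1) / 400)) n) (m n)) ∧
      E (j + 1) y' + c₁ * A j ≤ E j y + X j y + (1 / 2) ^ (w j / 3000) := by
    intro j y
    by_cases hj : j + 1 < K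
    · obtain ⟨h1, -, -⟩ := hlev j (by omega)
      have h2 := hww j hj
      obtain ⟨y', M, o, l, Ψ, hM, ho, hlogM, hy', hE'⟩ := hS N (w j) (w (j + 1)) lam y (φ j) (u j)
        (X j y) (by omega) (by omega) hlam (hN j (by omega)).2 (hX0 j y)
        (hFC j (by omega)) (hcr j (by omega) y)
      refine ⟨y', fun _ => ⟨?_, ?_⟩⟩
      · obtain ⟨T, m, F, hT1, hT2, hT3⟩ := hT N (w j) o (2 ^ (w (j + 1) / 400)) M l hM
          (hN j (by omega)).2 ho
        refine ⟨T, m, fun a i t => Ψ (a t) (F i t), hT1, ?_, ?_⟩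
        · rw [hτ]
          refine hT2.trans ?_
          gcongr
        · intro n
          funext t
          have h3 := congrFun (hT3 n) t
          show y' (n + ((t : ℕ) : ZMod N)) = _
          rw [hy']
          show _ = Ψ (y (n + ((t : ℕ) : ZMod N))) (F (m n) t)
          rw [← h3]
          rfl
      · rw [hE, hE, hA]
        exact hE'
    · exact ⟨fun _ _ => false, fun h => absurd h hj⟩
  -- the sequence
  let S : (j : ℕ) → (ZMod N → Fin (w j) → Bool) := fun j =>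
    Nat.rec (motive := fun j => ZMod N → Fin (w j) → Bool) y0
      (fun j yj => Classical.choose (hstep j yj)) j
  have hS0 : S 0 = y0 := rfl
  have hSs : ∀ j, j + 1 < K → _ := fun j => Classical.choose_spec (hstep j (S j))
  have hsum : ∀ m, m < K → E m (S m) + c₁ * ∑ j ∈ range m, A j ≤
      E 0 y0 + ∑ j ∈ range m, (X j (S j) + (1 / 2) ^ (w j / 3000)) := by
    intro m
    induction m with
    | zero => intro _; simp [hS0]
    | succ m ih =>
      intro hm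
      have h1 := ih (by omega)
      have h2 := (hSs m hm).2
      rw [sum_range_succ, sum_range_succ]
      have h3 : E (m + 1) (S (m + 1)) + c₁ * A m ≤
          E m (S m) + X m (S m) + (1 / 2) ^ (w m / 3000) := h2
      linarith
  -- the last level
  have hlast : c₁ * A (K - 1) ≤ E (K - 1) (S (K - 1)) + X (K - 1) (S (K - 1)) +
      (1 / 2) ^ (w (K - 1) / 3000) := by
    obtain ⟨h1, -, -⟩ := hlev (K - 1) (by omega)
    obtain ⟨y', M, o, l, Ψ, hM, ho, hlogM, hy', hE'⟩ := hS N (w (K - 1)) (w (K - 1)) lam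
      (S (K - 1)) (φ (K - 1)) (u (K - 1)) (X (K - 1) (S (K - 1))) (by omega) le_rfl hlam
      (hN (K - 1) (by omega)).2 (hX0 _ _) (hFC (K - 1) (by omega)) (hcr (K - 1) (by omega) _)
    rw [hE, hA]
    have h2 : 0 ≤ avZ (fun x => (lam x - val (w (K - 1)) (y' x)) ^ 2) := by
      unfold avZ
      positivity
    linarith
  have htot : c₁ * ∑ j ∈ range K, A j ≤
      E 0 y0 + ∑ j ∈ range K, (X j (S j) + (1 / 2) ^ (w j / 3000)) := by
    have h1 := hsum (K - 1) (by omega)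
    have e1 : range K = range ((K - 1) + 1) := by
      congr 1
      omega
    rw [e1, sum_range_succ, sum_range_succ]
    linarith
  -- the entropy
  have hent : ∑ j ∈ range K, infA c (S j) (w j) ≤ 5 * (1 / 2) ^ (s / 4) := by
    have h1 : ∀ j, ∃ T : ℕ, (j + 1 < K → 1 ≤ T ∧ Real.log T ≤ τ j ∧ ∃ (m : ZMod N → Fin T)
        (F : (Fin (2 ^ (w (j + 1) / 400)) → (Fin (w j) → Bool)) → Fin T →
          Fin (2 ^ (w (j + 1) / 400)) → (Fin (w (j + 1)) → Bool)),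
        ∀ n, wd (S (j + 1)) (2 ^ (w (j + 1) / 400)) n =
          F (wd (S j) (2 ^ (w (j + 1) / 400)) n) (m n)) := by
      intro j
      by_cases hj : j + 1 < K
      · obtain ⟨T, m, F, hT1, hT2, hT3⟩ := (hSs j hj).1
        exact ⟨T, fun _ => ⟨hT1, hT2, m, F, hT3⟩⟩
      · exact ⟨1, fun h => absurd h hj⟩
    choose T hTT using h1
    have h2 := hC c N K (fun j => Fin (w j) → Bool) T w S (by omega)
      (fun j hj => by have := hww j hj; omega) (fun j hj => (hN j hj).1)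
      (fun j hj => by
        obtain ⟨-, -, m, F, h⟩ := hTT j hj
        exact ⟨m, F, h⟩)
    have h3 : ent (unif N) (fun n => wd (S 0) (2 ^ (w 0 / 400)) n) / 2 ^ (w 0 / 400) ≤
        (1 / 2) ^ (s / 2) := by
      obtain ⟨T', m, F, hT1, hT2, hT3⟩ := hT N s o0 (2 ^ (w 0 / 400)) M0 l0 hM0 hsN ho0
      have h4 : ent (unif N) (fun n => wd (S 0) (2 ^ (w 0 / 400)) n) ≤ Real.log T' := by
        have e1 : (fun n => wd (S 0) (2 ^ (w 0 / 400)) n) =
            fun n => (fun i : Fin T' => fun t => Ψ0 (F i t)) (m n) := by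
          funext n t
          have h5 := congrFun (hT3 n) t
          show y0 (n + ((t : ℕ) : ZMod N)) = Ψ0 (F (m n) t)
          rw [hy0, ← h5]
          rfl
        rw [e1]
        refine (ent_comp_le (unif N) m (fun i : Fin T' => fun t => Ψ0 (F i t))).trans ?_
        have : Nonempty (Fin T') := ⟨⟨0, hT1⟩⟩
        have h6 := ent_le_log_card (unif N) m
        rwa [Fintype.card_fin] at h6
      refine hw₃ s (w 0 / 400) _ (by omega) (by omega) ?_
      refine h4.trans (hT2.trans ?_)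
      have h7 : Real.log M0 ≤ Cb * s * 2 ^ (s / 200) := by
        refine hlogM0.trans ?_
        have : (1 : ℝ) ≤ 2 ^ (s / 200) := one_le_pow₀ (by norm_num)
        have h8 : 0 ≤ Cb * s := by positivity
        nlinarith
      gcongr
    have h5 : ∑ j ∈ range (K - 1), Real.log (T j) / 2 ^ (w (j + 1) / 400) ≤
        2 * (1 / 2) ^ (w 0 / 2) := by
      refine le_trans (sum_le_sum (g := fun j => (1 / 2 : ℝ) ^ (w j / 2)) ?_)
        (geo w (K - 1) 2 (by norm_num) (fun j hj => by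
          have := (hlev j (by omega)).2.2
          omega))
      intro j hj
      have hj' : j + 1 < K := by
        have := mem_range.1 hj
        omega
      obtain ⟨hT1, hT2, -⟩ := hTT j hj'
      rw [hτ] at hT2
      have h6 := hww j hj'
      have h7 := (hlev j (by omega)).1
      exact hw₁ (w j) (w (j + 1) / 400) _ (by omega) (by omega) hT2
    have h6 : ∑ j ∈ range K, (1 / 2 : ℝ) ^ (w j / 2) *
        Real.log (Fintype.card (Fin (w j) → Bool)) ≤ 2 * (1 / 2) ^ (w 0 / 4) := by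
      refine le_trans (sum_le_sum (g := fun j => (1 / 2 : ℝ) ^ (w j / 4)) ?_)
        (geo w K 4 (by norm_num) (fun j hj => by
          have := (hlev j (by omega)).2.2
          omega))
      intro j hj
      have h7 := (hlev j (mem_range.1 hj)).1
      exact hw₂ (w j) (by omega)
    have hp : ∀ a : ℕ, s / 4 ≤ a → (1 / 2 : ℝ) ^ a ≤ (1 / 2) ^ (s / 4) := fun a ha =>
      pow_le_pow_of_le_one (by norm_num) (by norm_num) ha
    have h7 := hp (s / 2) (by omega)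
    have h8 := hp (w 0 / 2) (by omega)
    have h9 := hp (w 0 / 4) (by omega)
    linarith
  have hlogs := logs w K (by omega) (fun j hj => (hlev j hj).2.1)
  have hη : ∑ j ∈ range K, (1 / 2 : ℝ) ^ (w j / 3000) ≤ 2 * (1 / 2) ^ (s / 4) := by
    refine (geo w K 3000 (by norm_num) (fun j hj => (hlev j hj).2.2)).trans ?_
    have : (1 / 2 : ℝ) ^ (w 0 / 3000) ≤ (1 / 2) ^ (s / 4) :=
      pow_le_pow_of_le_one (by norm_num) (by norm_num) (by omega)
    linarith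
  have hsq : 4 / √(w 0 : ℝ) ≤ 4 / √(s : ℝ) := by
    apply div_le_div_of_nonneg_left (by norm_num)
    · exact Real.sqrt_pos.2 (by exact_mod_cast hs1)
    · exact Real.sqrt_le_sqrt (by exact_mod_cast hw0s)
  have hXs : ∑ j ∈ range K, X j (S j) ≤ Cx * (5 * (1 / 2) ^ (s / 4) + 4 / √(s : ℝ)) := by
    have e1 : ∑ j ∈ range K, X j (S j) =
        Cx * (∑ j ∈ range K, infA c (S j) (w j) + ∑ j ∈ range K, Real.log (w j) / w j) := by
      rw [← sum_add_distrib, mul_sum]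
      exact sum_congr rfl fun j _ => hXd j (S j)
    rw [e1]
    apply mul_le_mul_of_nonneg_left _ hCx.le
    linarith
  have hsm := hs₄ s (by omega)
  rw [sum_add_distrib] at htot
  have hE0' : E 0 y0 ≤ 2 * be R s lam b β + (1 / 2) ^ (s / 4) := by
    rw [hE]
    exact hE0
  have hq : 0 ≤ 4 / √(s : ℝ) := by positivity
  have hp4 : (0 : ℝ) ≤ (1 / 2) ^ (s / 4) := by positivity
  have hfin : c₁ * ∑ j ∈ range K, A j ≤ 2 * be R s lam b β + c₁ * ε := by
    have h1 : (1 / 2 : ℝ) ^ (s / 4) + Cx * (5 * (1 / 2) ^ (s / 4) + 4 / √(s : ℝ)) +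
        2 * (1 / 2) ^ (s / 4) ≤ (3 + 5 * Cx) * ((1 / 2) ^ (s / 4) + 4 / √s) := by
      nlinarith
    linarith
  have hres : ∑ j ∈ range K, A j ≤ 2 / c₁ * be R s lam b β + ε := by
    rw [div_mul_eq_mul_div]
    rw [← sub_nonneg] at hfin ⊢
    have : 2 * be R s lam b β / c₁ + ε - ∑ j ∈ range K, A j =
        (2 * be R s lam b β + c₁ * ε - c₁ * ∑ j ∈ range K, A j) / c₁ := by
      field_simp
    rw [this]
    positivity
  calc _ = ∑ j ∈ range K, A j := sum_congr rfl fun j _ => (hA j).symm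
    _ ≤ _ := hres

end Pool.Agent.H93.HB
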