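import Pool.Agent.H93.HB.BLO
import Pool.Agent.H56.HB.All
import Pool.Agent.H28.HB.AllA
import Pool.Agent.H28.HB.STP
import Pool.Agent.H28.HB.BS0
import Pool.Agent.H28.HB.OFF
import Pool.Agent.H83.HB.RowsB
import Pool.Agent.H21.HB.DGW

/-!
# Theorem (H) for all window lengths (MP_c59857_nt): Bessel's inequality on one block, without
hypotheses
-/

set_option autoImplicit false

namespace Pool.Agent.H93.HB.All

open Pool.Agent.H93.HB

theorem stp : T_STP := Pool.Agent.H28.HB.pf_STP Pool.Agent.H21.HB.pf_DGW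
  Pool.Agent.H83.HB.pf_NET Pool.Agent.H28.HB.pf_OFF Pool.Agent.H83.HB.pf_RND

theorem bs0 : T_BS0 := Pool.Agent.H28.HB.pf_BS0 Pool.Agent.H83.HB.pf_NE0
  Pool.Agent.H28.HB.pf_OFF Pool.Agent.H83.HB.pf_RND

/-- Bessel's inequality on one block. -/
theorem blo : T_BLO := pf_BLO Pool.Agent.H56.HB.All.xro stp bs0 Pool.Agent.H83.HB.pf_TLE
  Pool.Agent.H28.HB.AllA.aCHD Pool.Agent.H28.HB.AllA.aDPI

end Pool.Agent.H93.HB.All
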