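import Pool.Agent.H6.G9.Targets
import Pool.Agent.H56.HB.Targets
import Pool.Agent.H28.HB.Targets

/-!
# Theorem (H) for all window lengths (MP_c59857_nt), Bessel's inequality below the logarithm:
definitions for one block

The block is the cyclic group `ZMod N`; the windows of the level `w` are `n + t`, `t < 2 ^ w`.
The families are given at the places `t` of the window. The bounded functions of the greedy
algorithm are given by binary digits.
-/

set_option autoImplicit false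

namespace Pool.Agent.H93.HB

open Finset Pool.Agent.H18.MR Pool.Agent.H93.DE Pool.Agent.H6.N4D Pool.Agent.H93
  Pool.Agent.H93.ES Pool.Agent.H22.GS Pool.Agent.H6.G9 Pool.Agent.H56.HB Pool.Agent.H28.HB

/-! ## digits -/

/-- the number with the binary digits `b` -/
noncomputable def val (D : ℕ) (b : Fin D → Bool) : ℝ :=
  ∑ d : Fin D, sg (b d) * (1 / 2) ^ ((d : ℕ) + 1)

/-- clipping -/
noncomputable def clp (v : ℝ) : ℝ := max (-1) (min v 1)

/-! ## windows -/

/-- the letters of the window of `n` -/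
def lt {N : ℕ} (f : ZMod N → ℝ) (n : ZMod N) (t : ℕ) : ℝ := f (n + (t : ZMod N))

/-- the dual function of a family on the window which begins at the residue `r₀` -/
noncomputable def dg (w r₀ P : ℕ) (φ : ℕ → ℕ → ℝ) (u : ℕ → ℕ → ℂ) (t : ℕ) : ℂ :=
  ∑ q ∈ EB.QQ w, 1 / (q : ℂ) * (DR q (r₀ + t) : ℂ) * fe P φ u q t

/-- the energy of a family -/
noncomputable def qe (w P : ℕ) (φ : ℕ → ℕ → ℝ) (u : ℕ → ℕ → ℂ) : ℝ :=
  ∑ q ∈ EB.QQ w, 1 / (q : ℝ) * ms w (fe P φ u q)

/-- the functional of a family: twice the tests minus the mean squares -/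
noncomputable def fw (f : ℕ → ℝ) (w r₀ P : ℕ) (φ : ℕ → ℕ → ℝ) (u : ℕ → ℕ → ℂ) : ℝ :=
  ∑ q ∈ EB.QQ w, 1 / (q : ℝ) * (2 * (cx f w q r₀ (fe P φ u q)).re - ms w (fe P φ u q))

/-- the families of the block theorem: (N) or (F), separated frequencies, mean squares zero or not
too small -/
structure FC (w P : ℕ) (V : ℝ) (φ : ℕ → ℕ → ℝ) (u : ℕ → ℕ → ℂ) : Prop where
  nf : NF w P V φ u
  cl : ∀ q ∈ EB.QQ w, ∀ i < P, ∀ j < P, u i q ≠ 0 → u j q ≠ 0 → Sp w q (φ i q) (φ j q)
  ct : ∀ q ∈ EB.QQ w, (∀ j < P, u j q = 0) ∨ (1 / 2) ^ (w / 1000) ≤ ms w (fe P φ u q)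

/-- the mean square distance of `f` from the sums of `R` exponentials on the windows of length
`2 ^ s` -/
noncomputable def be {N : ℕ} [NeZero N] (R s : ℕ) (f : ZMod N → ℝ) (b : ZMod N → ℕ → ℂ)
    (β : ZMod N → ℕ → ℝ) : ℝ :=
  avZ (fun n => (∑ t ∈ range (2 ^ s),
    ‖(lt f n t : ℂ) - ∑ r ∈ range R, b n r * ee (β n r * t)‖ ^ 2) / 2 ^ s)

/-! ## tiles -/

/-- the place of `x` in its tile, tiles of length `2 ^ w` with the offset `o` -/
def tl (w o : ℕ) {N : ℕ} (x : ZMod N) : Fin (2 ^ w) :=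
  ⟨(x.val + 2 ^ w - o) % 2 ^ w, Nat.mod_lt _ (by positivity)⟩

/-- the first point of the tile of `x` -/
def tp (w o : ℕ) {N : ℕ} (x : ZMod N) : ZMod N := x - ((tl w o x : ℕ) : ZMod N)

end Pool.Agent.H93.HB
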